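import Pool.Agent.X225.Tk.Main

/-!
MP_5491e1_lc: under k-top ballots no constant fraction of `nk/m` voters can always be matched.
-/

namespace Pool.Agent.Results.MP_5491e1_lc.NoLargeMatching

open Pool.Agent.X225.Tk

/-- For every `B` there are `n`, `m`, `k` and a profile such that, for every candidate `a`, every
set `S` of voters with a perfect matching in `G_k(a)` satisfies `B |S| m < n k`. For `B = 1` this
is the negation of Q1. -/
theorem result (B : ℕ) : ∃ (V : Type) (_ : Fintype V) (m k : ℕ) (_ : NeZero m)
    (r : V → Equiv.Perm (Fin m)), 1 ≤ k ∧ k ≤ m ∧ 0 < Fintype.card V ∧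
      ∀ (a : Fin m) (S : Finset V) (M : V → V), IsMatching k r a S M →
        B * (S.card * m) < Fintype.card V * k :=
  main B

end Pool.Agent.Results.MP_5491e1_lc.NoLargeMatching
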